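import Pool.Agent.Helper42.RZ.St.S5

/-! # RZ-S6: lower bound for mixtures of exponentials -/

set_option autoImplicit false

open MeasureTheory Set Metric Filter Topology
open scoped ENNReal

namespace Pool.Agent.Helper96.RZ
open Pool.Agent.Helper42.RZ

theorem exp_neg_le_two_div_sq {t : ℝ} (ht : 0 < t) : Real.exp (-t) ≤ 2 / t ^ 2 := by
  rw [Real.exp_neg, inv_eq_one_div, div_le_div_iff₀ (Real.exp_pos _) (by positivity)]
  have := Real.quadratic_le_exp_of_nonneg ht.le
  nlinarith

theorem bg_exp_nonneg (w : ℝ) : 0 ≤ bg (fun r => Real.exp (-w * r)) := by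
  unfold bg
  apply intervalIntegral.integral_nonneg (by norm_num)
  intro r hr
  have := hr.1
  positivity

theorem bg_exp_le_one {w : ℝ} (hw : 0 < w) : bg (fun r => Real.exp (-w * r)) ≤ 1 := by
  unfold bg
  calc ∫ r in (0 : ℝ)..2, Real.exp (-w * r) * (r / 2) ≤ ∫ r in (0 : ℝ)..2, r / 2 := by
        apply intervalIntegral.integral_mono_on (by norm_num)
        · exact (by fun_prop : Continuous fun r : ℝ => Real.exp (-w * r) * (r / 2)).intervalIntegrable _ _
        · exact (by fun_prop : Continuous fun r : ℝ => r / 2).intervalIntegrable _ _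
        · intro r hr
          have h1 : Real.exp (-w * r) ≤ 1 := Real.exp_le_one_iff.2 (by nlinarith [hr.1])
          have := hr.1
          nlinarith
    _ = 1 := by
        rw [intervalIntegral.integral_div, integral_id]; norm_num

theorem bg_exp_le_inv {w : ℝ} (hw : 0 < w) :
    bg (fun r => Real.exp (-w * r)) ≤ 1 / (2 * w ^ 2) := by
  have hd : ∀ r ∈ uIcc (0 : ℝ) 2, HasDerivAt
      (fun r => -(Real.exp (-w * r) * (w * r + 1) / (2 * w ^ 2)))
      (Real.exp (-w * r) * (r / 2)) r := by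
    intro r _
    have h1 : HasDerivAt (fun r => -w * r) (-w) r := by
      simpa using (hasDerivAt_id r).const_mul (-w)
    have h2 : HasDerivAt (fun r => w * r + 1) w r := by
      simpa using ((hasDerivAt_id r).const_mul w).add_const 1
    have h3 := ((h1.exp.mul h2).div_const (2 * w ^ 2)).neg
    have hw0 : w ≠ 0 := hw.ne'
    have h6 : Real.exp (-w * r) * (r / 2) =
        -((Real.exp (-w * r) * -w * (w * r + 1) + Real.exp (-w * r) * w) / (2 * w ^ 2)) := by
      rw [← neg_div, eq_div_iff (by positivity)]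
      ring
    rw [h6]
    exact h3
  have h := intervalIntegral.integral_eq_sub_of_hasDerivAt hd
    ((by fun_prop : Continuous fun r : ℝ => Real.exp (-w * r) * (r / 2)).intervalIntegrable _ _)
  unfold bg
  rw [h]
  have h4 : 0 ≤ Real.exp (-w * 2) * (w * 2 + 1) / (2 * w ^ 2) := by positivity
  have h5 : Real.exp (-w * 0) * (w * 0 + 1) / (2 * w ^ 2) = 1 / (2 * w ^ 2) := by simp
  linarith

theorem PS_exp_nonneg {N : ℕ} (x : Fin N → E3) (w : ℝ) :
    0 ≤ PS x (fun r => Real.exp (-w * r)) :=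
  Finset.sum_nonneg fun _ _ => (Real.exp_pos _).le

theorem integrable_exp {Ω : Type} [MeasurableSpace Ω] (μ : Measure Ω) (W : Ω → ℝ)
    (hW : Measurable W) (hpos : ∀ ω, 0 < W ω)
    (hint : Integrable (fun ω => min 1 ((W ω) ^ 2)⁻¹) μ) {r : ℝ} (hr : 0 < r) :
    Integrable (fun ω => Real.exp (-W ω * r)) μ := by
  refine (hint.const_mul (max 1 (2 / r ^ 2))).mono' (by fun_prop) (Eventually.of_forall fun ω => ?_)
  rw [Real.norm_eq_abs, abs_of_pos (Real.exp_pos _)]
  have hw := hpos ω
  have h1 : Real.exp (-W ω * r) ≤ 1 := Real.exp_le_one_iff.2 (by nlinarith)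
  have h2 : Real.exp (-W ω * r) ≤ 2 / r ^ 2 * (W ω ^ 2)⁻¹ := by
    have := exp_neg_le_two_div_sq (mul_pos hw hr)
    rw [← neg_mul] at this
    refine this.trans (le_of_eq ?_)
    field_simp
  have h0 : 0 < 2 / r ^ 2 := by positivity
  have h3 : 0 < (W ω ^ 2)⁻¹ := by positivity
  rcases le_total 1 ((W ω) ^ 2)⁻¹ with h | h
  · rw [min_eq_left h, mul_one]
    exact h1.trans (le_max_left _ _)
  · rw [min_eq_right h]
    exact h2.trans (mul_le_mul_of_nonneg_right (le_max_right _ _) h3.le)

theorem integrable_bg_exp {Ω : Type} [MeasurableSpace Ω] (μ : Measure Ω) [SigmaFinite μ] (W : Ω → ℝ)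
    (hW : Measurable W) (hpos : ∀ ω, 0 < W ω)
    (hint : Integrable (fun ω => min 1 ((W ω) ^ 2)⁻¹) μ) :
    Integrable (fun ω => bg (fun r => Real.exp (-W ω * r))) μ ∧
    bg (fun r => ∫ ω, Real.exp (-W ω * r) ∂μ) = ∫ ω, bg (fun r => Real.exp (-W ω * r)) ∂μ := by
  have hcont : ∀ w : ℝ, Continuous fun r : ℝ => Real.exp (-w * r) * (r / 2) := fun w => by fun_prop
  have hmeas : AEStronglyMeasurable
      (fun z : Ω × ℝ => Real.exp (-W z.1 * z.2) * (z.2 / 2)) 
      (μ.prod ((volume : Measure ℝ).restrict (Ioc 0 2))) := by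
    apply Measurable.aestronglyMeasurable
    fun_prop
  have hbgeq : ∀ w : ℝ, bg (fun r => Real.exp (-w * r)) =
      ∫ r in Ioc (0 : ℝ) 2, Real.exp (-w * r) * (r / 2) := fun w => by
    unfold bg
    rw [intervalIntegral.integral_of_le (by norm_num)]
  have hbgn : ∀ w : ℝ, ∫ r in Ioc (0 : ℝ) 2, ‖Real.exp (-w * r) * (r / 2)‖ =
      bg (fun r => Real.exp (-w * r)) := fun w => by
    rw [hbgeq]
    refine setIntegral_congr_fun measurableSet_Ioc fun r hr => ?_
    have := hr.1
    rw [Real.norm_eq_abs, abs_of_nonneg (by positivity)]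
  have hI : Integrable (fun z : Ω × ℝ => Real.exp (-W z.1 * z.2) * (z.2 / 2))
      (μ.prod ((volume : Measure ℝ).restrict (Ioc 0 2))) := by
    rw [integrable_prod_iff hmeas]
    refine ⟨Eventually.of_forall fun ω => ?_, ?_⟩
    · exact ((hcont (W ω)).intervalIntegrable 0 2).1
    · simp only [hbgn]
      refine hint.mono' ?_ (Eventually.of_forall fun ω => ?_)
      · have := hmeas.norm.integral_prod_right'
        simpa only [hbgn] using this
      · rw [Real.norm_eq_abs, abs_of_nonneg (bg_exp_nonneg _)]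
        refine le_min (bg_exp_le_one (hpos ω)) ((bg_exp_le_inv (hpos ω)).trans ?_)
        have := hpos ω
        rw [inv_eq_one_div]
        apply one_div_le_one_div_of_le (by positivity)
        nlinarith [sq_nonneg (W ω)]
  constructor
  · have := hI.integral_prod_left
    simpa only [← hbgeq] using this
  · have h1 := integral_prod _ hI
    have h2 := integral_prod_symm _ hI
    simp only [← hbgeq] at h1
    rw [← h1, h2]
    unfold bg
    rw [intervalIntegral.integral_of_le (by norm_num)]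
    refine setIntegral_congr_fun measurableSet_Ioc fun r hr => ?_
    simp only
    rw [integral_mul_const]

/-- `N² bg κ - PS x κ ≤ ∫ min (N, N² / (2 W²))` for `κ r = ∫ exp (- W r)` -/
theorem lb_general {Ω : Type} [MeasurableSpace Ω] (μ : Measure Ω) [SigmaFinite μ] (W : Ω → ℝ)
    (hW : Measurable W) (hpos : ∀ ω, 0 < W ω)
    (hint : Integrable (fun ω => min 1 ((W ω) ^ 2)⁻¹) μ) {N : ℕ} (x : Fin N → E3) (hx : Conf x) :
    (N : ℝ) ^ 2 * bg (fun r => ∫ ω, Real.exp (-W ω * r) ∂μ) -
      PS x (fun r => ∫ ω, Real.exp (-W ω * r) ∂μ) ≤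
      ∫ ω, min (N : ℝ) ((N : ℝ) ^ 2 / (2 * (W ω) ^ 2)) ∂μ := by
  obtain ⟨hb1, hb2⟩ := integrable_bg_exp μ W hW hpos hint
  have hne : ∀ p ∈ (Finset.univ : Finset (Fin N)).offDiag, 0 < ‖x p.1 - x p.2‖ := by
    intro p hp
    rw [norm_pos_iff, sub_ne_zero]
    exact fun h => (Finset.mem_offDiag.1 hp).2.2 (hx.1 h)
  have hPSi : Integrable (fun ω => PS x (fun r => Real.exp (-W ω * r))) μ := by
    unfold PS
    exact integrable_finsetSum _ fun p hp => integrable_exp μ W hW hpos hint (hne p hp)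
  have hPS : PS x (fun r => ∫ ω, Real.exp (-W ω * r) ∂μ) =
      ∫ ω, PS x (fun r => Real.exp (-W ω * r)) ∂μ := by
    unfold PS
    rw [integral_finsetSum _ fun p hp => integrable_exp μ W hW hpos hint (hne p hp)]
  rw [hb2, hPS, ← integral_const_mul, ← integral_sub (hb1.const_mul _) hPSi]
  refine integral_mono ((hb1.const_mul _).sub hPSi) ?_ fun ω => ?_
  · refine (hint.const_mul (max (N : ℝ) ((N : ℝ) ^ 2))).mono'
      (Measurable.aestronglyMeasurable (by fun_prop))
      (Eventually.of_forall fun ω => ?_)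
    have hw := hpos ω
    rw [Real.norm_eq_abs, abs_of_nonneg (by positivity)]
    have h3 : 0 < (W ω ^ 2)⁻¹ := by positivity
    rcases le_total 1 ((W ω) ^ 2)⁻¹ with h | h
    · rw [min_eq_left h, mul_one]
      exact (min_le_left _ _).trans (le_max_left _ _)
    · rw [min_eq_right h]
      refine (min_le_right _ _).trans ?_
      have h4 : (N : ℝ) ^ 2 / (2 * W ω ^ 2) ≤ (N : ℝ) ^ 2 * (W ω ^ 2)⁻¹ := by
        rw [← div_eq_mul_inv]
        apply div_le_div_of_nonneg_left (by positivity) (by positivity)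
        nlinarith [sq_nonneg (W ω)]
      exact h4.trans (mul_le_mul_of_nonneg_right (le_max_right _ _) h3.le)
  · have hw := hpos ω
    have h1 := pd_exp x hx.2 hw.le
    have h2 := bg_exp_le_inv hw
    have h3 := PS_exp_nonneg x (W ω)
    refine le_min (by simp only; linarith) ?_
    simp only
    have h5 : (N : ℝ) ^ 2 * bg (fun r => Real.exp (-W ω * r)) ≤ (N : ℝ) ^ 2 / (2 * W ω ^ 2) := by
      rw [div_eq_mul_one_div]
      exact mul_le_mul_of_nonneg_left h2 (by positivity)
    linarith

end Pool.Agent.Helper96.RZ
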